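import Pool.Agent.Helper35.OE.GoalsE

/-!
# Packet OE-E-HEAD: splitting off the first coordinate
-/

namespace Pool.Agent.Helper31.OE

open MeasureTheory Finset
open Pool.Agent.Helper35.OE

variable {α : Type}

/-- The inverse of the splitting. -/
def glue (p : α × (ℕ → α)) : ℕ → α := fun n => Nat.rec p.1 (fun i _ => p.2 i) n

theorem measurable_glue [MeasurableSpace α] : Measurable (glue (α := α)) := by
  refine measurable_pi_lambda _ fun n => ?_
  cases n with
  | zero => exact measurable_fst
  | succ n => exact (measurable_pi_apply n).comp measurable_snd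

theorem gHEAD : G_HEAD := by
  intro α _ ρ _
  classical
  have key : (ρ.prod (Measure.infinitePi fun _ : ℕ => ρ)).map glue =
      Measure.infinitePi fun _ : ℕ => ρ := by
    refine Measure.eq_infinitePi _ fun s t ht => ?_
    obtain ⟨N, hN⟩ : ∃ N, s ⊆ range (N + 1) := by
      obtain ⟨N, hN⟩ := s.exists_nat_subset_range
      exact ⟨N, hN.trans (range_subset_range.2 (Nat.le_succ N))⟩
    set t' : ℕ → Set α := fun i => if i ∈ s then t i else Set.univ with ht'
    have hmt : ∀ i, MeasurableSet (t' i) := by
      intro i
      rw [ht']
      dsimp only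
      split_ifs
      · exact ht i
      · exact MeasurableSet.univ
    have e1 : Set.pi (s : Set ℕ) t = Set.pi (range (N + 1) : Set ℕ) t' := by
      ext x
      simp only [Set.mem_pi, Finset.mem_coe, ht']
      constructor
      · intro h i _
        split_ifs with hi
        · exact h i hi
        · trivial
      · intro h i hi
        have := h i (hN hi)
        rwa [if_pos hi] at this
    have e2 : ∏ i ∈ s, ρ (t i) = ∏ i ∈ range (N + 1), ρ (t' i) := by
      rw [← Finset.prod_subset hN]
      · refine Finset.prod_congr rfl fun i hi => ?_
        rw [ht']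
        dsimp only
        rw [if_pos hi]
      · intro i _ hi
        rw [ht']
        dsimp only
        rw [if_neg hi]
        exact measure_univ
    have e3 : glue ⁻¹' (Set.pi (range (N + 1) : Set ℕ) t') =
        t' 0 ×ˢ (Set.pi (range N : Set ℕ) fun i => t' (i + 1)) := by
      ext p
      simp only [Set.mem_preimage, Set.mem_pi, Finset.mem_coe, mem_range, Set.mem_prod]
      constructor
      · intro h
        exact ⟨h 0 (Nat.succ_pos N), fun i hi => h (i + 1) (Nat.succ_lt_succ hi)⟩
      · rintro ⟨h0, h⟩ i hi
        cases i with
        | zero => exact h0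
        | succ i => exact h i (Nat.lt_of_succ_lt_succ hi)
    rw [e2, e1, Measure.map_apply measurable_glue, e3, Measure.prod_prod,
      Measure.infinitePi_pi _ fun i _ => hmt (i + 1), prod_range_succ', mul_comm]
    exact MeasurableSet.pi (range (N + 1)).countable_toSet fun i _ => hmt i
  have hm : Measurable (fun u : ℕ → α => (u 0, fun i => u (i + 1))) := by fun_prop
  have hid : (fun u : ℕ → α => (u 0, fun i => u (i + 1))) ∘ glue = id := by
    funext p
    rfl
  conv_lhs => rw [← key]
  rw [Measure.map_map hm measurable_glue, hid, Measure.map_id]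

end Pool.Agent.Helper31.OE
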