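import Pool.Agent.Helper78.OE.GoalsC2

/-!
Project OE (MP_fc0446_an), packet OE-LONG: the law of the length of a run.
-/

open MeasureTheory Pool.Agent.Helper73.OE
open scoped ENNReal

namespace Pool.Agent.Helper31.OE

open Pool.Agent.Helper78.OE

variable {H S L : Type} [Group H] (X : Sys H S L) [Fintype S] [Fintype L]

theorem long {ε : ℝ} {μ : Measure (St H S L)} (C : Ctx X ε μ) (h : SHIFT X ε μ) :
    LONG X ε μ := by
  intro r
  induction r with
  | zero =>
    intro v p y G _
    rw [pow_zero, one_mul]
    refine lintegral_congr fun w => ?_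
    have h1 : ind (X.Long (Om X ε w) w.1 0 v p y) = 1 := ind_true trivial
    rw [h1, mul_one]
  | succ r ih =>
    intro v p y G hG
    have h2 := (h (fun v p y w => ind (X.Long (Om X ε w) w.1 r v p y)) (sg ε ^ r)
      (fun v p y => meas_long X C.meas C.locb ε r v p y)).2 (fun v p y G hG => ih v p y G hG)
      v p y G hG
    rw [pow_succ', ← h2]
    refine lintegral_congr fun w => ?_
    congr 1
    rw [← ind_and]
    rfl

end Pool.Agent.Helper31.OE
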